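import Pool.Agent.H75.ERG.Targets

/-!
# Invariant functions of polygonal billiards: the mollification in terms of the oscillation (C_HLN)
-/

namespace Pool.Agent.H32.EG

open MeasureTheory Set Metric Filter Topology Pool.Agent.H93.BL
open Pool.Agent.H93.EN (av md rf chi gchi Bd Ml Nl Inv Agr sg VV Chart LS Phi)
open Pool.Agent.H93.EG (InvG Sm gN hN nrm)
open Pool.Agent.H75.ERG

theorem hln_aux (k : ℂ → ℂ) (hk : Continuous k) (B δ : ℝ) (hB : ∀ z, ‖k z‖ ≤ B)
    (hz : ∀ z, δ ≤ ‖z‖ → k z = 0) (x : ℂ) (f : ℂ → ℝ) (hf : Measurable f)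
    (hf1 : ∀ y, 0 ≤ f y ∧ f y ≤ 1) (c : ℝ) :
    ‖(∫ y, k (x - y) * (f y : ℂ)) - (∫ z, k z) * (c : ℂ)‖ ≤ B * ∫ y in ball x δ, |f y - c| := by
  have hB0 : 0 ≤ B := (norm_nonneg _).trans (hB 0)
  have hkc : HasCompactSupport k := by
    refine HasCompactSupport.of_support_subset_isCompact (isCompact_closedBall (0 : ℂ) δ) ?_
    intro z hz1
    rw [mem_closedBall, dist_zero_right]
    by_contra hcon
    exact hz1 (hz z (not_le.mp hcon).le)
  have hki : Integrable k := hk.integrable_of_hasCompactSupport hkc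
  have hki' : Integrable (fun y => k (x - y)) := hki.comp_sub_left x
  have hfm : AEStronglyMeasurable (fun y => (f y : ℂ)) volume :=
    (Complex.measurable_ofReal.comp hf).aestronglyMeasurable
  have h1 : Integrable (fun y => k (x - y) * (f y : ℂ)) := by
    refine hki'.mul_bdd (c := 1) hfm ?_
    refine Eventually.of_forall fun y => ?_
    rw [Complex.norm_real, Real.norm_eq_abs, abs_of_nonneg (hf1 y).1]
    exact (hf1 y).2
  have h2 : (∫ z, k z) * (c : ℂ) = ∫ y, k (x - y) * (c : ℂ) := by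
    rw [integral_mul_const, integral_sub_left_eq_self k]
  have h3 : (∫ y, k (x - y) * (f y : ℂ)) - (∫ z, k z) * (c : ℂ) =
      ∫ y, k (x - y) * ((f y - c : ℝ) : ℂ) := by
    rw [h2, ← integral_sub h1 (hki'.mul_const _)]
    refine integral_congr_ae (Eventually.of_forall fun y => ?_)
    simp only [Complex.ofReal_sub]
    ring
  have hz' : ∀ y, y ∉ ball x δ → ‖k (x - y) * ((f y - c : ℝ) : ℂ)‖ = 0 := by
    intro y hy
    rw [mem_ball, not_lt, dist_comm, dist_eq_norm] at hy
    rw [hz _ hy]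
    simp
  have hfb : ∀ y, |f y - c| ≤ 1 + |c| := by
    intro y
    have h4 := abs_sub (f y) c
    have h5 : |f y| ≤ 1 := by
      rw [abs_of_nonneg (hf1 y).1]
      exact (hf1 y).2
    linarith [abs_sub (f y) c]
  have hint : IntegrableOn (fun y => |f y - c|) (ball x δ) := by
    refine Measure.integrableOn_of_bounded (M := 1 + |c|) (measure_ball_lt_top).ne ?_ ?_
    · exact ((hf.sub_const c).abs).aestronglyMeasurable
    · refine Eventually.of_forall fun y => ?_
      rw [Real.norm_eq_abs, abs_abs]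
      exact hfb y
  rw [h3]
  calc ‖∫ y, k (x - y) * ((f y - c : ℝ) : ℂ)‖
      ≤ ∫ y, ‖k (x - y) * ((f y - c : ℝ) : ℂ)‖ := norm_integral_le_integral_norm _
    _ = ∫ y in ball x δ, ‖k (x - y) * ((f y - c : ℝ) : ℂ)‖ :=
        (setIntegral_eq_integral_of_forall_compl_eq_zero hz').symm
    _ ≤ ∫ y in ball x δ, B * |f y - c| := by
        refine integral_mono_of_nonneg (Eventually.of_forall fun y => norm_nonneg _)
          (hint.const_mul B) (Eventually.of_forall fun y => ?_)
        simp only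
        rw [norm_mul, Complex.norm_real, Real.norm_eq_abs]
        exact mul_le_mul_of_nonneg_right (hB _) (abs_nonneg _)
    _ = B * ∫ y in ball x δ, |f y - c| := integral_const_mul _ _

theorem gchi_neg (δ : ℝ) (hd : Differentiable ℝ (chi δ))
    (hrad : ∀ x y, ‖x‖ = ‖y‖ → chi δ x = chi δ y) (z : ℂ) :
    gchi δ (-z) = -gchi δ z := by
  have h1 : (fun x => chi δ (-x)) = chi δ := by
    funext x
    exact hrad _ _ (norm_neg x)
  have h2 : ∀ v : ℂ, fderiv ℝ (chi δ) z v = -fderiv ℝ (chi δ) (-z) v := by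
    intro v
    have h3 : HasFDerivAt (chi δ) (fderiv ℝ (chi δ) (-z)) (-z) := (hd (-z)).hasFDerivAt
    have h4 : HasFDerivAt (fun x : ℂ => -x) (-(ContinuousLinearMap.id ℝ ℂ)) z :=
      (hasFDerivAt_id z).neg
    have h5 : HasFDerivAt (fun x => chi δ (-x))
        ((fderiv ℝ (chi δ) (-z)).comp (-(ContinuousLinearMap.id ℝ ℂ))) z :=
      HasFDerivAt.comp z h3 h4
    rw [h1] at h5
    rw [h5.fderiv, ContinuousLinearMap.comp_apply, neg_apply,
      ContinuousLinearMap.id_apply, map_neg]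
  unfold gchi
  rw [h2, h2]
  simp only [Complex.ofReal_neg]
  ring

theorem hln (hCH : Pool.Agent.H93.EN.T_CH) : T_HLN := by
  obtain ⟨-, -, -, -, C, hC, hch⟩ := hCH
  refine ⟨C, hC, ?_⟩
  intro Φ hΦ δ x w c hδ
  obtain ⟨hsm, hcs, hb, hz, hint, hrad, hgc, hgb, hgz⟩ := hch δ hδ
  have hf : Measurable (fun y => Φ y w) := hΦ.1.comp (measurable_id.prodMk measurable_const)
  have hf1 : ∀ y, 0 ≤ Φ y w ∧ Φ y w ≤ 1 := fun y => hΦ.2.1 y w
  constructor
  · have h0 : ∫ z, gchi δ z = 0 := by
      have h1 : ∫ z, gchi δ (-z) = ∫ z, gchi δ z := integral_neg_eq_self (gchi δ) volume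
      have h2 : ∫ z, gchi δ (-z) = -∫ z, gchi δ z := by
        rw [← integral_neg]
        exact integral_congr_ae (Eventually.of_forall fun z =>
          gchi_neg δ (hsm.differentiable (by simp)) hrad z)
      rw [h2] at h1
      exact neg_eq_self.mp h1
    have h3 := hln_aux (gchi δ) hgc (C / δ ^ 3) δ hgb hgz x (fun y => Φ y w) hf hf1 c
    rw [h0, zero_mul, sub_zero] at h3
    exact h3
  · have h3 := hln_aux (fun z => (chi δ z : ℂ)) (Complex.continuous_ofReal.comp hsm.continuous)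
      (C / δ ^ 2) δ (fun z => by
        rw [Complex.norm_real, Real.norm_eq_abs, abs_of_nonneg (hb z).1]
        exact (hb z).2)
      (fun z hz1 => by rw [hz z hz1, Complex.ofReal_zero]) x (fun y => Φ y w) hf hf1 c
    have h4 : ∫ z, (chi δ z : ℂ) = 1 := by
      rw [integral_complex_ofReal, hint, Complex.ofReal_one]
    have h5 : ∫ y, (chi δ (x - y) : ℂ) * (Φ y w : ℂ) = ((Ml Φ δ x w : ℝ) : ℂ) := by
      unfold Ml
      rw [← integral_complex_ofReal]
      refine integral_congr_ae (Eventually.of_forall fun y => ?_)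
      simp only [Complex.ofReal_mul]
    rw [h4, one_mul, h5, ← Complex.ofReal_sub, Complex.norm_real, Real.norm_eq_abs] at h3
    exact h3

end Pool.Agent.H32.EG
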